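import Pool.Agent.Y661.NU.Stm

/-!
# NU-SEP: separation of the couplings
-/

set_option autoImplicit false

namespace Pool.Agent.Y430.NU.SEP

open MeasureTheory H974 Pool.Agent.Y661.NU

/-- the law of two couplings -/
theorem map_pair (μ : Measure ℝ) [IsProbabilityMeasure μ] {e f : Edg} (h : e ≠ f) :
    (PJ μ).map (fun J => (J e, J f)) = μ.prod μ := by
  have h1 := ProbabilityTheory.iIndepFun_infinitePi (P := fun _ : Edg => μ)
    (X := fun _ : Edg => (id : ℝ → ℝ)) (fun _ => measurable_id)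
  have h2 := h1.indepFun h
  rw [ProbabilityTheory.indepFun_iff_map_prod_eq_prod_map_map
    (by exact (measurable_pi_apply e).aemeasurable)
    (by exact (measurable_pi_apply f).aemeasurable)] at h2
  have h3 : ∀ g : Edg, (Measure.infinitePi fun _ : Edg => μ).map (fun J => id (J g)) = μ :=
    fun g => Measure.infinitePi_map_eval (fun _ : Edg => μ) g
  rw [h3, h3] at h2
  exact h2

theorem main : S_SEP := by
  intro μ _ K δ hδ M
  have hδ0 : 0 ≤ δ := measureReal_nonneg.trans hδ
  have hA : MeasurableSet {p : ℝ × ℝ | |p.1| ≤ K * |p.2| ∧ |p.2| ≤ K * |p.1|} := by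
    refine MeasurableSet.inter ?_ ?_
    · exact measurableSet_le (f := fun p : ℝ × ℝ => |p.1|) (g := fun p : ℝ × ℝ => K * |p.2|)
        (by fun_prop) (by fun_prop)
    · exact measurableSet_le (f := fun p : ℝ × ℝ => |p.2|) (g := fun p : ℝ × ℝ => K * |p.1|)
        (by fun_prop) (by fun_prop)
  constructor
  · have : {J : Edg → ℝ | Pool.Agent.Y661.NU.Sep J K M} = ⋂ e ∈ boxE (M + 1), ⋂ f ∈ boxE (M + 1), ⋂ (_ : e ≠ f),
        {J : Edg → ℝ | K * |J e| < |J f| ∨ K * |J f| < |J e|} := by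
      ext J
      simp only [Pool.Agent.Y661.NU.Sep, Set.mem_iInter, Set.mem_ofPred_eq]
    rw [this]
    refine Finset.measurableSet_biInter _ fun e _ => Finset.measurableSet_biInter _ fun f _ =>
      MeasurableSet.iInter fun _ => ?_
    refine MeasurableSet.union ?_ ?_
    · exact measurableSet_lt (f := fun J : Edg → ℝ => K * |J e|) (g := fun J : Edg → ℝ => |J f|)
        (by fun_prop) (by fun_prop)
    · exact measurableSet_lt (f := fun J : Edg → ℝ => K * |J f|) (g := fun J : Edg → ℝ => |J e|)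
        (by fun_prop) (by fun_prop)
  · have hpair : ∀ e f : Edg, (PJ μ).real {J : Edg → ℝ | e ≠ f ∧
        (|J e| ≤ K * |J f| ∧ |J f| ≤ K * |J e|)} ≤ δ := by
      intro e f
      by_cases h : e = f
      · have : {J : Edg → ℝ | e ≠ f ∧ (|J e| ≤ K * |J f| ∧ |J f| ≤ K * |J e|)} = ∅ := by
          ext J
          simp [h]
        rw [this, measureReal_empty]
        exact hδ0
      · have : {J : Edg → ℝ | e ≠ f ∧ (|J e| ≤ K * |J f| ∧ |J f| ≤ K * |J e|)} =
            (fun J : Edg → ℝ => (J e, J f)) ⁻¹'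
              {p : ℝ × ℝ | |p.1| ≤ K * |p.2| ∧ |p.2| ≤ K * |p.1|} := by
          ext J
          exact ⟨fun h' => h'.2, fun h' => ⟨h, h'⟩⟩
        rw [this]
        refine le_trans (le_of_eq ?_) hδ
        rw [measureReal_def, measureReal_def, ← map_pair μ h,
          Measure.map_apply (by fun_prop) hA]
    have hsub : {J : Edg → ℝ | ¬ Pool.Agent.Y661.NU.Sep J K M} ⊆ ⋃ p ∈ boxE (M + 1) ×ˢ boxE (M + 1),
        {J : Edg → ℝ | p.1 ≠ p.2 ∧ (|J p.1| ≤ K * |J p.2| ∧ |J p.2| ≤ K * |J p.1|)} := by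
      intro J hJ
      have hJ' : ¬ Pool.Agent.Y661.NU.Sep J K M := hJ
      unfold Pool.Agent.Y661.NU.Sep at hJ'
      simp only [not_forall, not_or, not_lt] at hJ'
      obtain ⟨e, he, f, hf, hne, h1, h2⟩ := hJ'
      refine Set.mem_iUnion₂.2 ⟨(e, f), Finset.mem_product.2 ⟨he, hf⟩, hne, h2, h1⟩
    refine (measureReal_mono hsub (measure_ne_top _ _)).trans ((measureReal_biUnion_finset_le _ _).trans ?_)
    refine (Finset.sum_le_sum fun p _ => hpair p.1 p.2).trans (le_of_eq ?_)
    rw [Finset.sum_const, Finset.card_product, nsmul_eq_mul]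
    push_cast
    ring

end Pool.Agent.Y430.NU.SEP
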